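import Mathlib

/-! Gamma function limits for the Cardy constant (project K of MP_35f495_pr).

`dd n`: corner to opposite wired side, `2n+1` strands; `xx w`: corner to corner, `2w` strands. -/

open Real Filter Topology Finset

namespace CardyK

/-- `P(corner ↔ opposite wired side)`, `2n+1` strands -/
noncomputable def dd : ℕ → ℝ
  | 0 => 1
  | n + 1 => dd n * ((3 * n + 5) * (2 * n + 1) / ((6 * n + 5) * (n + 2)))

/-- `P(corner ↔ corner)`, `2w` strands, shifted: `xx m` is the value for `w = m + 1` -/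
noncomputable def xx : ℕ → ℝ
  | 0 => 1
  | m + 1 => xx m * ((3 * m + 7) * (2 * m + 1) / ((6 * m + 7) * (m + 3)))

theorem dd_pos (n : ℕ) : 0 < dd n := by
  induction n with
  | zero => simp [dd]
  | succ n ih => rw [dd]; positivity

theorem xx_pos (n : ℕ) : 0 < xx n := by
  induction n with
  | zero => simp [xx]
  | succ n ih => rw [xx]; positivity

/-- product with four parameters -/
noncomputable def pr4 (a b c d : ℝ) (n : ℕ) : ℝ :=
  ∏ k ∈ range n, ((a + k) * (b + k) / ((c + k) * (d + k)))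

theorem dd_eq (n : ℕ) : dd n = pr4 (5 / 3) (1 / 2) (5 / 6) 2 n := by
  induction n with
  | zero => simp [dd, pr4]
  | succ n ih =>
    rw [dd, ih, pr4, pr4, Finset.prod_range_succ]
    congr 1
    field_simp
    ring

theorem xx_eq (n : ℕ) : xx n = pr4 (7 / 3) (1 / 2) (7 / 6) 3 n := by
  induction n with
  | zero => simp [xx, pr4]
  | succ n ih =>
    rw [xx, ih, pr4, pr4, Finset.prod_range_succ]
    congr 1
    field_simp
    ring

theorem prod_ne {a : ℝ} (ha : 0 < a) (n : ℕ) : ∏ j ∈ range n, (a + (j : ℝ)) ≠ 0 :=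
  Finset.prod_ne_zero_iff.mpr fun j _ => by positivity

theorem pr4_succ {a b c d : ℝ} (ha : 0 < a) (hb : 0 < b) (hc : 0 < c) (hd : 0 < d) {n : ℕ}
    (hn : 0 < n) :
    pr4 a b c d (n + 1) * (n : ℝ) ^ (c + d - a - b) =
      GammaSeq c n * GammaSeq d n / (GammaSeq a n * GammaSeq b n) := by
  have hn' : (0 : ℝ) < n := by exact_mod_cast hn
  have hf : ((n.factorial : ℕ) : ℝ) ≠ 0 := by exact_mod_cast Nat.factorial_ne_zero n
  have h1 : pr4 a b c d (n + 1) = (∏ j ∈ range (n + 1), (a + (j : ℝ))) * (∏ j ∈ range (n + 1), (b + (j : ℝ))) /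
      ((∏ j ∈ range (n + 1), (c + (j : ℝ))) * (∏ j ∈ range (n + 1), (d + (j : ℝ)))) := by
    rw [pr4, Finset.prod_div_distrib, Finset.prod_mul_distrib, Finset.prod_mul_distrib]
  have h2 : (n : ℝ) ^ (c + d - a - b) = (n : ℝ) ^ c * (n : ℝ) ^ d / ((n : ℝ) ^ a * (n : ℝ) ^ b) := by
    rw [Real.rpow_sub hn', Real.rpow_sub hn', Real.rpow_add hn']
    rw [div_div]
  have ea := (Real.rpow_pos_of_pos hn' a).ne'
  have eb := (Real.rpow_pos_of_pos hn' b).ne'
  have ec := (Real.rpow_pos_of_pos hn' c).ne'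
  have ed := (Real.rpow_pos_of_pos hn' d).ne'
  have pa := prod_ne ha (n + 1)
  have pb := prod_ne hb (n + 1)
  have pc := prod_ne hc (n + 1)
  have pd := prod_ne hd (n + 1)
  rw [h1, h2]
  simp only [GammaSeq]
  field_simp

theorem pr4_tendsto {a b c d : ℝ} (ha : 0 < a) (hb : 0 < b) (hc : 0 < c) (hd : 0 < d) :
    Tendsto (fun n : ℕ => pr4 a b c d (n + 1) * (n : ℝ) ^ (c + d - a - b)) atTop
      (𝓝 (Gamma c * Gamma d / (Gamma a * Gamma b))) := by
  have h : Tendsto (fun n : ℕ => GammaSeq c n * GammaSeq d n / (GammaSeq a n * GammaSeq b n)) atTop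
      (𝓝 (Gamma c * Gamma d / (Gamma a * Gamma b))) :=
    ((GammaSeq_tendsto_Gamma c).mul (GammaSeq_tendsto_Gamma d)).div
      ((GammaSeq_tendsto_Gamma a).mul (GammaSeq_tendsto_Gamma b))
      (mul_ne_zero (Gamma_pos_of_pos ha).ne' (Gamma_pos_of_pos hb).ne')
  refine h.congr' ?_
  filter_upwards [eventually_gt_atTop 0] with n hn
  exact (pr4_succ ha hb hc hd hn).symm

theorem succ_ratio : Tendsto (fun n : ℕ => ((n : ℝ) + 1) / n) atTop (𝓝 1) := by
  have h1 : Tendsto (fun n : ℕ => 1 + 1 / (n : ℝ)) atTop (𝓝 (1 + 0)) :=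
    tendsto_const_nhds.add tendsto_one_div_atTop_nhds_zero_nat
  rw [add_zero] at h1
  refine h1.congr' ?_
  filter_upwards [eventually_gt_atTop 0] with n hn
  have hn' : (n : ℝ) ≠ 0 := by exact_mod_cast hn.ne'
  field_simp

/-- version without shift -/
theorem pr4_tendsto' {a b c d : ℝ} (ha : 0 < a) (hb : 0 < b) (hc : 0 < c) (hd : 0 < d) :
    Tendsto (fun n : ℕ => pr4 a b c d n * (n : ℝ) ^ (c + d - a - b)) atTop
      (𝓝 (Gamma c * Gamma d / (Gamma a * Gamma b))) := by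
  rw [← tendsto_add_atTop_iff_nat 1]
  have h1 := pr4_tendsto ha hb hc hd
  have h2 : Tendsto (fun n : ℕ => (((n : ℝ) + 1) / n) ^ (c + d - a - b)) atTop (𝓝 1) := by
    have := succ_ratio.rpow_const (p := c + d - a - b) (Or.inl one_ne_zero)
    simpa using this
  have h3 := h1.mul h2
  rw [mul_one] at h3
  refine h3.congr' ?_
  filter_upwards [eventually_gt_atTop 0] with n hn
  have hn' : (0 : ℝ) < n := by exact_mod_cast hn
  rw [mul_assoc, ← Real.mul_rpow hn'.le (by positivity)]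
  congr 2
  push_cast
  field_simp

theorem dd_tendsto : Tendsto (fun n : ℕ => dd n * (n : ℝ) ^ (2 / 3 : ℝ)) atTop
    (𝓝 (Gamma (5 / 6) / (Gamma (5 / 3) * √π))) := by
  have h := pr4_tendsto' (a := 5 / 3) (b := 1 / 2) (c := 5 / 6) (d := 2) (by norm_num) (by norm_num)
    (by norm_num) (by norm_num)
  have e1 : (5 / 6 + 2 - 5 / 3 - 1 / 2 : ℝ) = 2 / 3 := by norm_num
  have e2 : Gamma 2 = 1 := by
    have : (2 : ℝ) = ((1 : ℕ) : ℝ) + 1 := by norm_num
    rw [this, Real.Gamma_nat_eq_factorial]; simp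
  rw [e1, e2, mul_one, Gamma_one_half_eq] at h
  simpa only [dd_eq] using h

theorem xx_tendsto : Tendsto (fun n : ℕ => xx n * (n : ℝ) ^ (4 / 3 : ℝ)) atTop
    (𝓝 (2 * Gamma (7 / 6) / (Gamma (7 / 3) * √π))) := by
  have h := pr4_tendsto' (a := 7 / 3) (b := 1 / 2) (c := 7 / 6) (d := 3) (by norm_num) (by norm_num)
    (by norm_num) (by norm_num)
  have e1 : (7 / 6 + 3 - 7 / 3 - 1 / 2 : ℝ) = 4 / 3 := by norm_num
  have e2 : Gamma 3 = 2 := by
    have : (3 : ℝ) = ((2 : ℕ) : ℝ) + 1 := by norm_num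
    rw [this, Real.Gamma_nat_eq_factorial]; simp
  rw [e1, e2, mul_comm (Gamma (7 / 6)), Gamma_one_half_eq] at h
  simpa only [xx_eq] using h

/-- the amplitude is the inverse of the constant in Cardy's formula -/
theorem amplitude : (2 * Gamma (7 / 6) / (Gamma (7 / 3) * √π)) /
    (Gamma (5 / 6) / (Gamma (5 / 3) * √π)) ^ 2 = Gamma (1 / 3) ^ 2 / (3 * Gamma (2 / 3)) := by
  have g1 : Gamma (7 / 6) = 1 / 6 * Gamma (1 / 6) := by
    rw [← Real.Gamma_add_one (by norm_num)]; norm_num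
  have g2 : Gamma (5 / 3) = 2 / 3 * Gamma (2 / 3) := by
    rw [← Real.Gamma_add_one (by norm_num)]; norm_num
  have g3 : Gamma (4 / 3) = 1 / 3 * Gamma (1 / 3) := by
    rw [← Real.Gamma_add_one (by norm_num)]; norm_num
  have g4 : Gamma (7 / 3) = 4 / 3 * Gamma (4 / 3) := by
    rw [← Real.Gamma_add_one (by norm_num)]; norm_num
  have d1 := Real.Gamma_mul_Gamma_add_half (1 / 6)
  have d2 := Real.Gamma_mul_Gamma_add_half (1 / 3)
  have e1 : (1 / 6 + 1 / 2 : ℝ) = 2 / 3 := by norm_num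
  have e2 : (2 * (1 / 6) : ℝ) = 1 / 3 := by norm_num
  have e3 : (1 - 1 / 3 : ℝ) = 2 / 3 := by norm_num
  have e4 : (1 / 3 + 1 / 2 : ℝ) = 5 / 6 := by norm_num
  have e5 : (2 * (1 / 3) : ℝ) = 2 / 3 := by norm_num
  have e6 : (1 - 2 / 3 : ℝ) = 1 / 3 := by norm_num
  rw [e2, e1, e3] at d1
  rw [e5, e4, e6] at d2
  have p1 : 0 < Gamma (1 / 6 : ℝ) := Gamma_pos_of_pos (by norm_num)
  have p2 : 0 < Gamma (1 / 3 : ℝ) := Gamma_pos_of_pos (by norm_num)
  have p3 : 0 < Gamma (2 / 3 : ℝ) := Gamma_pos_of_pos (by norm_num)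
  have p4 : 0 < Gamma (5 / 6 : ℝ) := Gamma_pos_of_pos (by norm_num)
  have ht : (2 : ℝ) ^ (2 / 3 : ℝ) = (2 : ℝ) ^ (1 / 3 : ℝ) * (2 : ℝ) ^ (1 / 3 : ℝ) := by
    rw [← Real.rpow_add (by norm_num)]; norm_num
  set t : ℝ := (2 : ℝ) ^ (1 / 3 : ℝ) with htd
  have pt : 0 < t := Real.rpow_pos_of_pos (by norm_num) _
  have psp : 0 < √π := Real.sqrt_pos.mpr Real.pi_pos
  set q := √π with hq
  rw [ht] at d1
  set A := Gamma (1 / 6 : ℝ) with hA
  set B := Gamma (1 / 3 : ℝ) with hB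
  set C := Gamma (2 / 3 : ℝ) with hC
  set D := Gamma (5 / 6 : ℝ) with hD
  rw [g1, g2, g4, g3]
  have hA' : A = B * (t * t) * q / C := by
    rw [eq_div_iff p3.ne']; linarith
  have hD' : D = C * t * q / B := by
    rw [eq_div_iff p2.ne']; linarith
  rw [hA', hD']
  field_simp
  ring

/-- the value for `w = n + 1` (that is `2n+2` strands) against `2n+1` strands -/
theorem ratio_tendsto : Tendsto (fun n : ℕ => xx n / dd n ^ 2) atTop
    (𝓝 (Gamma (1 / 3) ^ 2 / (3 * Gamma (2 / 3)))) := by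
  rw [← amplitude]
  have hne : Gamma (5 / 6 : ℝ) / (Gamma (5 / 3) * √π) ≠ 0 := by
    have p1 : 0 < Gamma (5 / 6 : ℝ) := Gamma_pos_of_pos (by norm_num)
    have p2 : 0 < Gamma (5 / 3 : ℝ) := Gamma_pos_of_pos (by norm_num)
    have psp : 0 < √π := Real.sqrt_pos.mpr Real.pi_pos
    positivity
  refine (xx_tendsto.div (dd_tendsto.pow 2) (pow_ne_zero 2 hne)).congr' ?_
  filter_upwards [eventually_gt_atTop 0] with n hn
  have hn' : (0 : ℝ) < n := by exact_mod_cast hn
  have h1 : ((n : ℝ) ^ (2 / 3 : ℝ)) ^ 2 = (n : ℝ) ^ (4 / 3 : ℝ) := by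
    rw [← Real.rpow_natCast, ← Real.rpow_mul hn'.le]; norm_num
  have h2 := (Real.rpow_pos_of_pos hn' (4 / 3 : ℝ)).ne'
  simp only [Pi.div_apply]
  rw [mul_pow, h1, mul_div_mul_right _ _ h2]

/-- the value for `w = n` (that is `2n` strands) against `2n+1` strands -/
theorem ratio_tendsto' : Tendsto (fun n : ℕ => xx n / dd (n + 1) ^ 2) atTop
    (𝓝 (Gamma (1 / 3) ^ 2 / (3 * Gamma (2 / 3)))) := by
  have h1 : Tendsto (fun n : ℕ => dd n / dd (n + 1)) atTop (𝓝 1) := by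
    have h2 : Tendsto (fun n : ℕ => (5 / 6 + (n : ℝ)) / n * ((2 + (n : ℝ)) / n) *
        (n / (5 / 3 + (n : ℝ))) * (n / (1 / 2 + (n : ℝ)))) atTop (𝓝 (1 * 1 * 1 * 1)) := by
      have h3 : ∀ a : ℝ, Tendsto (fun n : ℕ => (a + (n : ℝ)) / n) atTop (𝓝 1) := by
        intro a
        have h4 : Tendsto (fun n : ℕ => 1 + a * (1 / (n : ℝ))) atTop (𝓝 (1 + a * 0)) :=
          tendsto_const_nhds.add (tendsto_one_div_atTop_nhds_zero_nat.const_mul a)
        rw [mul_zero, add_zero] at h4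
        refine h4.congr' ?_
        filter_upwards [eventually_gt_atTop 0] with n hn
        have hn' : (n : ℝ) ≠ 0 := by exact_mod_cast hn.ne'
        field_simp
        ring
      have h5 : ∀ a : ℝ, Tendsto (fun n : ℕ => (n : ℝ) / (a + (n : ℝ))) atTop (𝓝 1) := by
        intro a
        have := (h3 a).inv₀ one_ne_zero
        rw [inv_one] at this
        refine this.congr fun n => ?_
        simp only [inv_div]
      exact (((h3 _).mul (h3 _)).mul (h5 _)).mul (h5 _)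
    rw [one_mul, one_mul, one_mul] at h2
    refine h2.congr' ?_
    filter_upwards [eventually_gt_atTop 0] with n hn
    have hn' : (0 : ℝ) < n := by exact_mod_cast hn
    have hd := (dd_pos n).ne'
    rw [dd]
    field_simp
    ring
  have h6 := ratio_tendsto.mul (h1.pow 2)
  rw [one_pow, mul_one] at h6
  refine h6.congr fun n => ?_
  have hd := (dd_pos n).ne'
  have hd' := (dd_pos (n + 1)).ne'
  field_simp

end CardyK
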